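import Pool.Agent.Lib.MP_b1a3a4_al.MVS.LG.Iface

/-!
# Project MVS, part IV: module POW (12.1)
-/

set_option linter.all false

namespace Pool.Agent.Lib.MP_b1a3a4_al.MVS.LG.H58

open Filter Topology

section

variable {H H' : Type} [NormedAddCommGroup H] [InnerProductSpace ℝ H] [CompleteSpace H]
    [NormedAddCommGroup H'] [InnerProductSpace ℝ H'] [CompleteSpace H']

/-- the operator `1 - C*C` -/
noncomputable def NN (C : H →L[ℝ] H') : H →L[ℝ] H :=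
  ContinuousLinearMap.id ℝ H - (ContinuousLinearMap.adjoint C).comp C

lemma NN_apply (C : H →L[ℝ] H') (ζ : H) :
    NN C ζ = ζ - ContinuousLinearMap.adjoint C (C ζ) := rfl

lemma NN_succ (C : H →L[ℝ] H') (t : ℕ) (ζ : H) : (NN C ^ (t + 1)) ζ = NN C ((NN C ^ t) ζ) := by
  rw [pow_succ']; rfl

lemma NN_succ' (C : H →L[ℝ] H') (t : ℕ) (ζ : H) : (NN C ^ (t + 1)) ζ = (NN C ^ t) (NN C ζ) := by
  rw [pow_succ]; rfl

lemma norm_adj_le {C : H →L[ℝ] H'} (hC : ‖C‖ ≤ 1) (η : H') :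
    ‖ContinuousLinearMap.adjoint C η‖ ≤ ‖η‖ := by
  refine ((ContinuousLinearMap.adjoint C).le_opNorm η).trans ?_
  have : ‖ContinuousLinearMap.adjoint C‖ = ‖C‖ := LinearIsometryEquiv.norm_map _ _
  rw [this]
  exact mul_le_of_le_one_left (norm_nonneg _) hC

/-- the exact identity -/
lemma NN_normsq (C : H →L[ℝ] H') (ζ : H) :
    ‖NN C ζ‖ ^ 2 = ‖ζ‖ ^ 2 - 2 * ‖C ζ‖ ^ 2 + ‖ContinuousLinearMap.adjoint C (C ζ)‖ ^ 2 := by
  rw [NN_apply, norm_sub_sq_real, ContinuousLinearMap.adjoint_inner_right,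
    real_inner_self_eq_norm_sq]

lemma NN_star {C : H →L[ℝ] H'} (hC : ‖C‖ ≤ 1) (ζ : H) : ‖NN C ζ‖ ^ 2 + ‖C ζ‖ ^ 2 ≤ ‖ζ‖ ^ 2 := by
  rw [NN_normsq]
  have h := norm_adj_le hC (C ζ)
  have h2 : ‖ContinuousLinearMap.adjoint C (C ζ)‖ ^ 2 ≤ ‖C ζ‖ ^ 2 :=
    pow_le_pow_left₀ (norm_nonneg _) h 2
  linarith

lemma NN_le {C : H →L[ℝ] H'} (hC : ‖C‖ ≤ 1) (ζ : H) : ‖NN C ζ‖ ≤ ‖ζ‖ := by
  have h := NN_star hC ζ
  have h2 : ‖NN C ζ‖ ^ 2 ≤ ‖ζ‖ ^ 2 := by nlinarith [sq_nonneg ‖C ζ‖]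
  exact (sq_le_sq₀ (norm_nonneg _) (norm_nonneg _)).1 h2

lemma NN_pow_le {C : H →L[ℝ] H'} (hC : ‖C‖ ≤ 1) (t : ℕ) (ζ : H) : ‖(NN C ^ t) ζ‖ ≤ ‖ζ‖ := by
  induction t with
  | zero => simp
  | succ t ih => rw [NN_succ]; exact (NN_le hC _).trans ih

lemma NN_sum {C : H →L[ℝ] H'} (hC : ‖C‖ ≤ 1) (t : ℕ) (η : H) :
    ∑ i ∈ Finset.range t, ‖C ((NN C ^ i) η)‖ ^ 2 ≤ ‖η‖ ^ 2 - ‖(NN C ^ t) η‖ ^ 2 := by
  induction t with
  | zero => simp
  | succ t ih =>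
    rw [Finset.sum_range_succ, NN_succ]
    have := NN_star hC ((NN C ^ t) η)
    linarith

lemma NN_tend0 {C : H →L[ℝ] H'} (hC : ‖C‖ ≤ 1) (η : H) :
    Tendsto (fun t : ℕ => ‖C ((NN C ^ t) η)‖) atTop (𝓝 0) := by
  have hs : Summable (fun t : ℕ => ‖C ((NN C ^ t) η)‖ ^ 2) := by
    refine summable_of_sum_range_le (c := ‖η‖ ^ 2) (fun _ => sq_nonneg _) (fun t => ?_)
    have := NN_sum hC t η
    nlinarith [sq_nonneg ‖(NN C ^ t) η‖]
  have h1 := hs.tendsto_atTop_zero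
  have h2 := h1.sqrt
  simpa [Real.sqrt_sq (norm_nonneg _)] using h2

lemma NN_comm (C : H →L[ℝ] H') (t : ℕ) (η : H) :
    (NN C ^ t) (ContinuousLinearMap.adjoint C (C η)) =
      ContinuousLinearMap.adjoint C (C ((NN C ^ t) η)) := by
  induction t with
  | zero => simp
  | succ t ih =>
    rw [NN_succ, ih, NN_succ, NN_apply, NN_apply, map_sub, map_sub]

lemma NN_tend1 {C : H →L[ℝ] H'} (hC : ‖C‖ ≤ 1) (η : H) :
    Tendsto (fun t : ℕ => ‖(NN C ^ t) (ContinuousLinearMap.adjoint C (C η))‖) atTop (𝓝 0) := by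
  refine squeeze_zero (fun _ => norm_nonneg _) (fun t => ?_) (NN_tend0 hC η)
  rw [NN_comm]
  exact norm_adj_le hC _

end

/-- POW (12.1) -/
theorem pow : PowStatement := by
  intro H H' _ _ _ _ _ _ C P hC hP hCP hinj ξ
  change (∀ t : ℕ, ‖ξ - P ξ‖ ^ 2 ≤ ‖((NN C) ^ t) ξ‖ ^ 2) ∧
    Tendsto (fun t : ℕ => ‖((NN C) ^ t) ξ‖ ^ 2) atTop (𝓝 (‖ξ - P ξ‖ ^ 2))
  have hPC : ∀ η, P (ContinuousLinearMap.adjoint C η) = ContinuousLinearMap.adjoint C η := by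
    intro η
    refine ext_inner_right ℝ fun ζ => ?_
    rw [hP.symm, ContinuousLinearMap.adjoint_inner_left, ContinuousLinearMap.adjoint_inner_left,
      hCP]
  have hPN : ∀ ζ, P (NN C ζ) = NN C (P ζ) := by
    intro ζ
    rw [NN_apply, NN_apply, map_sub, hPC, hCP]
  have hPNt : ∀ (t : ℕ) ζ, P ((NN C ^ t) ζ) = (NN C ^ t) (P ζ) := by
    intro t
    induction t with
    | zero => intro ζ; simp
    | succ t ih => intro ζ; rw [NN_succ, hPN, ih, NN_succ]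
  have hfix : ∀ t : ℕ, (NN C ^ t) (ξ - P ξ) = ξ - P ξ := by
    intro t
    induction t with
    | zero => simp
    | succ t ih =>
      rw [NN_succ, ih, NN_apply, map_sub C, hCP, sub_self, map_zero, sub_zero]
  have hsplit : ∀ t : ℕ, ‖(NN C ^ t) ξ‖ ^ 2 = ‖ξ - P ξ‖ ^ 2 + ‖(NN C ^ t) (P ξ)‖ ^ 2 := by
    intro t
    have h1 : (NN C ^ t) ξ = (ξ - P ξ) + (NN C ^ t) (P ξ) := by
      conv_lhs => rw [show ξ = (ξ - P ξ) + P ξ by abel, map_add, hfix]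
    have h2 : inner ℝ (ξ - P ξ) ((NN C ^ t) (P ξ)) = 0 := by
      rw [← hPNt, ← hP.symm, map_sub, hP.idem, sub_self, inner_zero_left]
    rw [h1, norm_add_sq_real, h2]
    ring
  have htend : Tendsto (fun t : ℕ => ‖(NN C ^ t) (P ξ)‖) atTop (𝓝 0) := by
    have hmem : P ξ ∈ (LinearMap.range
        ((ContinuousLinearMap.adjoint C).comp C).toLinearMap).topologicalClosure := by
      rw [← Submodule.orthogonal_orthogonal_eq_closure]
      rw [Submodule.mem_orthogonal]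
      intro η hη
      rw [Submodule.mem_orthogonal] at hη
      have h1 := hη (ContinuousLinearMap.adjoint C (C η)) ⟨η, rfl⟩
      rw [ContinuousLinearMap.adjoint_inner_left, real_inner_self_eq_norm_sq] at h1
      have h2 : C η = 0 := by
        have := pow_eq_zero_iff (two_ne_zero) |>.1 h1
        exact norm_eq_zero.1 this
      have h3 : P η = 0 := hinj η (by rw [hCP, h2])
      rw [← hP.symm, h3, inner_zero_left]
    rw [Metric.tendsto_atTop]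
    intro ε hε
    have hcl : P ξ ∈ closure ((LinearMap.range
        ((ContinuousLinearMap.adjoint C).comp C).toLinearMap : Submodule ℝ H) : Set H) := hmem
    obtain ⟨κ, ⟨η, rfl⟩, hd⟩ := Metric.mem_closure_iff.1 hcl (ε / 2) (by positivity)
    have ht := Metric.tendsto_atTop.1 (NN_tend1 hC η) (ε / 2) (by positivity)
    obtain ⟨T, hT⟩ := ht
    refine ⟨T, fun t htT => ?_⟩
    have h1 := hT t htT
    rw [Real.dist_eq, sub_zero, abs_of_nonneg (norm_nonneg _)] at h1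
    rw [Real.dist_eq, sub_zero, abs_of_nonneg (norm_nonneg _)]
    rw [dist_eq_norm] at hd
    have h2 : (NN C ^ t) (P ξ) = (NN C ^ t) (P ξ - ContinuousLinearMap.adjoint C (C η)) +
        (NN C ^ t) (ContinuousLinearMap.adjoint C (C η)) := by
      rw [← map_add]; congr 1; abel
    have h3 : ‖(NN C ^ t) (P ξ - ContinuousLinearMap.adjoint C (C η))‖ < ε / 2 :=
      (NN_pow_le hC t _).trans_lt hd
    calc ‖(NN C ^ t) (P ξ)‖ ≤ _ := by rw [h2]; exact norm_add_le _ _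
      _ < ε / 2 + ε / 2 := add_lt_add h3 h1
      _ = ε := by ring
  constructor
  · intro t
    rw [hsplit t]
    nlinarith [sq_nonneg ‖(NN C ^ t) (P ξ)‖]
  · have h1 : (fun t : ℕ => ‖(NN C ^ t) ξ‖ ^ 2) =
        fun t : ℕ => ‖ξ - P ξ‖ ^ 2 + ‖(NN C ^ t) (P ξ)‖ ^ 2 := funext hsplit
    rw [h1]
    have h2 := (htend.pow 2).const_add (‖ξ - P ξ‖ ^ 2)
    simpa using h2

end Pool.Agent.Lib.MP_b1a3a4_al.MVS.LG.H58
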